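import Pool.Agent.Helper199.CubicLines

set_option autoImplicit false

namespace Pool.Agent.Results.MP_1ae330_nt.ElevenVariables

/-- There is a cubic form over the rationals in 11 variables that does not vanish identically on
any two-dimensional rational subspace. -/
theorem result :
    ∃ F : MvPolynomial (Fin 11) ℚ, F.IsHomogeneous 3 ∧ F ≠ 0 ∧
      ∀ W : Submodule ℚ (Fin 11 → ℚ), Module.finrank ℚ W = 2 →
        ∃ v ∈ W, MvPolynomial.eval v F ≠ 0 := by
  have : Fact (Nat.Prime 2) := ⟨Nat.prime_two⟩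
  obtain ⟨A, hA, hA0⟩ := Pool.Agent.Helper199.CubicLines.exists_aniso9 2
  refine Pool.Agent.Helper199.CubicLines.no_line A hA ?_
  intro x hx
  have h1 : MvPolynomial.aeval (fun i => ((x i : ℚ) : ℚ_[2])) A = 0 := by
    have h5 := MvPolynomial.map_aeval (R := ℤ) x (algebraMap ℚ ℚ_[2]) A
    have h6 : (algebraMap ℚ ℚ_[2]).comp (algebraMap ℤ ℚ) = algebraMap ℤ ℚ_[2] :=
      RingHom.ext_int _ _
    rw [h6, hx, map_zero] at h5
    exact h5.symm
  have h2 := hA0 _ h1
  funext i
  have h3 : ((x i : ℚ) : ℚ_[2]) = 0 := congrFun h2 i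
  have h4 : x i = 0 := by exact_mod_cast h3
  exact h4

end Pool.Agent.Results.MP_1ae330_nt.ElevenVariables
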